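import Pool.Agent.helper32.EB.Defs

/-! # Project EB: further definitions (all regions at once, heat kernel, explicit parameters) -/

open MeasureTheory ProbabilityTheory Filter Topology
open scoped ENNReal NNReal

namespace Pool.Agent.helper32.EB

/-! ### All regions at once -/

/-- value of a region in state `q` when the walk is at `w` relative to the centre -/
noncomputable def phiR (G : Geo) (ν : Measure ℂ) (w : ℂ) : RS G.J → ℝ≥0∞
  | none => 0
  | some (false, m, U) => Vv G ν m U
  | some (true, m, U) => Fv G ν (Vv G ν m) w U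

/-- one step of the walk and of the states of all regions -/
noncomputable def gstep (G : Geo) {M : ℕ} (o : Fin M → ℂ) (s : ℂ × (Fin M → RS G.J)) (y : ℂ) :
    ℂ × (Fin M → RS G.J) := (s.1 + y, fun i => rstep G (disp (s.1 + y - o i)) (s.2 i))

/-- consistency of a region state with the position -/
def ValQ (G : Geo) (w : ℂ) : RS G.J → Prop
  | none => True
  | some (false, _, _) => G.r < ‖disp w‖
  | some (true, _, _) => ‖disp w‖ < G.R'

/-- the (enlarged) outer discs of different regions are disjoint in the torus -/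
def Sep (G : Geo) {M : ℕ} (o : Fin M → ℂ) : Prop :=
  ∀ i j, i ≠ j → ∀ z, ¬ (‖disp (z - o i)‖ < G.R' + G.h ∧ ‖disp (z - o j)‖ < G.R' + G.h)

/-! ### Heat kernel of the torus -/

/-- heat kernel of the plane (for the generator `Δ`) -/
noncomputable def hk (t : ℝ) (z : ℂ) : ℝ≥0∞ :=
  ENNReal.ofReal (1 / (4 * Real.pi * t) * Real.exp (-‖z‖ ^ 2 / (4 * t)))

/-- heat kernel of the torus -/
noncomputable def pk (t : ℝ) (z : ℂ) : ℝ≥0∞ := ∑' m : ℤ × ℤ, hk t (z + ⟨m.1, m.2⟩)

/-- truncated Green function -/
noncomputable def green (T : ℝ) (z : ℂ) : ℝ≥0∞ := ∫⁻ t in Set.Ioc 0 T, pk t z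

/-! ### Constants of the one step inequalities -/

/-- lower bound for the probability that a piece does not hit a given small ball -/
noncomputable def cmx (G : Geo) : ℝ :=
  1 - Real.log (2 * (G.R' + G.r) / G.r) / Real.log ((G.R' + G.r) / G.ρ)

/-- upper bound for the same probability -/
noncomputable def cmn (G : Geo) : ℝ :=
  1 - Real.log ((G.R' - G.r) / (2 * G.r)) / Real.log ((G.R' - G.r) / (G.ρ - G.h))

/-- log of the radius of level `k` -/
noncomputable def tt (G : Geo) (k : ℕ) : ℝ := Real.log (G.R k / (G.ρ - G.h))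

/-- entrance side -/
noncomputable def s1 (G : Geo) (k : ℕ) : ℝ := Real.log ((G.R' - G.r) / (G.R k - G.h))

/-- exit side -/
noncomputable def s0 (G : Geo) (k : ℕ) : ℝ := Real.log ((G.R' - G.r) / (G.R (k - 1) + G.h))

/-- slope of the supersolution counting crossings to level `k` with weight `u` (no hit) -/
noncomputable def c1 (G : Geo) (k : ℕ) (u : ℝ) : ℝ :=
  (tt G (k - 1) - u * tt G k) / (s1 G k * tt G (k - 1) - u * tt G k * s0 G k)

/-- slope of the supersolution counting crossings to level `k` with weight `u` -/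
noncomputable def c2 (G : Geo) (k : ℕ) (u : ℝ) : ℝ := (1 - u) / (s1 G k - u * s0 G k)

/-- log of the ratio (ring) -/
noncomputable def sr (G : Geo) : ℝ := Real.log ((G.R' - G.r) / (2 * G.r))

/-- inverse of the probability of no hit in a crossing from level `l` to level `l - 1` -/
noncomputable def mu (G : Geo) (l : ℕ) : ℝ := tt G (l - 1) / tt G l

/-! ### The geometry used -/

/-- half side of the grid of centres -/
noncomputable def qL (ζ L : ℝ) : ℕ := ⌊Real.exp ((1 - 100 * ζ) * L) / 4⌋₊

/-- the geometry for the parameters `ζ`, `K` and `L = log (1/ε)` -/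
noncomputable def geoL (ζ : ℝ) (K : ℕ) (L : ℝ) : Geo where
  h := ph L
  r := Real.exp (-100 * ζ * L)
  R' := Real.exp (-99 * ζ * L)
  ρ := 2 * Real.exp (-L)
  J := (2 * qL ζ L + 1) * (2 * qL ζ L + 1)
  x := fun j => ⟨Real.exp (-L) * (((j : ℕ) / (2 * qL ζ L + 1) : ℕ) - (qL ζ L : ℝ)),
    Real.exp (-L) * (((j : ℕ) % (2 * qL ζ L + 1) : ℕ) - (qL ζ L : ℝ))⟩
  K := K
  R := fun k => 2 * Real.exp (-100 * ζ * L - k * ((1 - 100 * ζ) * L / K))

/-- number of pieces -/
noncomputable def nL (ζ γA L : ℝ) : ℕ := ⌈2 * γA * L / ζ⌉₊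

/-- typical number of crossings to level `k`, divided by `L` -/
noncomputable def DL (ζ γA : ℝ) (K k : ℕ) : ℝ :=
  2 * γA * ((1 - 100 * ζ) / K) * (K - k) * (K - k + 1) / ((1 - 99 * ζ) * (1 - 100 * ζ))

end Pool.Agent.helper32.EB
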