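import Mathlib

/-! # Project EB (MP_b57423_pr): principal Dirichlet eigenvalue of the torus minus a Brownian path.
Definitions. -/

open MeasureTheory ProbabilityTheory Filter Topology
open scoped ENNReal NNReal

namespace Pool.Agent.helper32.EB

/-! ### Torus, Brownian motion, eigenvalue -/

/-- the representative of `w` modulo the lattice `ℤ + iℤ` in the square `[-1/2,1/2]²`; `‖disp w‖` is
the distance from `w` to the lattice -/
noncomputable def disp (w : ℂ) : ℂ := ⟨w.re - round w.re, w.im - round w.im⟩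

/-- planar Brownian motion with generator `Δ` (each coordinate has variance `2 t`) -/
noncomputable def bm {Ω : Type*} (B₁ B₂ : ℝ≥0 → Ω → ℝ) (t : ℝ≥0) (ω : Ω) : ℂ :=
  ⟨√2 * B₁ t ω, √2 * B₂ t ω⟩

/-- two independent real Brownian motions -/
structure IsBM2 {Ω : Type*} [MeasurableSpace Ω] (P : Measure Ω) (B₁ B₂ : ℝ≥0 → Ω → ℝ) : Prop where
  prob : IsProbabilityMeasure P
  bm1 : IsBrownianReal B₁ P
  bm2 : IsBrownianReal B₂ P
  meas1 : ∀ t, Measurable (B₁ t)
  meas2 : ∀ t, Measurable (B₂ t)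
  indep : IndepFun (fun ω t => B₁ t ω) (fun ω t => B₂ t ω) P

/-- the path up to time `s` (in the plane; the torus is the quotient by `ℤ + iℤ`) -/
def trace {Ω : Type*} (B₁ B₂ : ℝ≥0 → Ω → ℝ) (s : ℝ) (ω : Ω) : Set ℂ :=
  {z | ∃ t : ℝ≥0, (t : ℝ) ≤ s ∧ bm B₁ B₂ t ω = z}

/-- smooth functions on the torus (written as periodic functions on the plane), not identically zero,
which vanish in a neighbourhood of every point of `K` -/
structure Adm (K : Set ℂ) (f : ℂ → ℝ) : Prop where
  smooth : ContDiff ℝ (⊤ : ℕ∞) f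
  per1 : ∀ z, f (z + 1) = f z
  perI : ∀ z, f (z + Complex.I) = f z
  van : ∀ z ∈ K, f =ᶠ[𝓝 z] 0
  nz : ∃ z, f z ≠ 0

/-- the fundamental domain -/
def unitSq : Set ℂ := {z | (0 ≤ z.re ∧ z.re ≤ 1) ∧ (0 ≤ z.im ∧ z.im ≤ 1)}

/-- Dirichlet energy on the torus -/
noncomputable def energy (f : ℂ → ℝ) : ℝ :=
  ∫ z in unitSq, ((fderiv ℝ f z 1) ^ 2 + (fderiv ℝ f z Complex.I) ^ 2)

/-- square of the `L²` norm on the torus -/
noncomputable def mass (f : ℂ → ℝ) : ℝ := ∫ z in unitSq, (f z) ^ 2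

/-- principal Dirichlet eigenvalue of the complement of (the image of) `K` in the torus -/
noncomputable def lam1 (K : Set ℂ) : ℝ≥0∞ :=
  ⨅ (f : ℂ → ℝ) (_ : Adm K f), ENNReal.ofReal (energy f / mass f)

/-! ### Steps -/

/-- law of the increment of `bm` over a time interval of length `δ` -/
noncomputable def gauss2 (δ : ℝ≥0) : Measure ℂ :=
  ((gaussianReal 0 (2 * δ)).prod (gaussianReal 0 (2 * δ))).map (fun p : ℝ × ℝ => (⟨p.1, p.2⟩ : ℂ))

open Classical in
/-- `y`, replaced by `0` if it is not shorter than `h` -/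
noncomputable def cut (h : ℝ) (y : ℂ) : ℂ := if ‖y‖ < h then y else 0

/-- law of the truncated increment -/
noncomputable def stepLaw (δ : ℝ≥0) (h : ℝ) : Measure ℂ := (gauss2 δ).map (cut h)

/-- rotation invariant law of steps shorter than `h` -/
structure RotStep (ν : Measure ℂ) (h : ℝ) : Prop where
  prob : IsProbabilityMeasure ν
  bdd : ∀ᵐ y ∂ν, ‖y‖ < h
  rot : ∀ c : ℂ, ‖c‖ = 1 → ν.map (fun y => c * y) = ν
  nondeg : 0 < ∫ y, ‖y‖ ^ 2 ∂ν

/-- independent steps with law `ν` -/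
structure IID {Ω : Type*} [MeasurableSpace Ω] (P : Measure Ω) (ν : Measure ℂ) (Y : ℕ → Ω → ℂ) :
    Prop where
  meas : ∀ k, Measurable (Y k)
  law : ∀ k, P.map (Y k) = ν
  indep : iIndepFun Y P

/-- the walk with steps `y` started at `z0` -/
noncomputable def walk (z0 : ℂ) (y : ℕ → ℂ) (k : ℕ) : ℂ := z0 + ∑ j ∈ Finset.range k, y j

/-- a state driven by the steps -/
def run {S : Type*} (g : S → ℂ → S) (s0 : S) (y : ℕ → ℂ) : ℕ → S
  | 0 => s0
  | N + 1 => g (run g s0 y N) (y N)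

/-! ### One region (in coordinates relative to its centre) -/

/-- data of a region: step bound `h`, inner radius `r`, outer radius `R'`, hit radius `ρ`, centres
`x j` of the small balls, number `K` of levels, radii `R k` of the levels -/
structure Geo where
  h : ℝ
  r : ℝ
  R' : ℝ
  ρ : ℝ
  J : ℕ
  x : Fin J → ℂ
  K : ℕ
  R : ℕ → ℝ

/-- the geometric conditions -/
structure Geo.OK (G : Geo) : Prop where
  hpos : 0 < G.h
  hρ : 8 * G.h ≤ G.ρ
  K6 : 6 ≤ G.K
  RK : G.R G.K = G.ρ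
  R0 : G.R 0 = 2 * G.r
  dec : ∀ k < G.K, 8 * G.R (k + 1) ≤ G.R k
  big : 8 * G.r ≤ G.R'
  small : G.R' + G.h < 1 / 2
  xs : ∀ j, ‖G.x j‖ ≤ 3 / 8 * G.r

open Classical in
/-- the small balls not yet hit after a visit of `z` -/
noncomputable def upd (G : Geo) (z : ℂ) (U : Finset (Fin G.J)) : Finset (Fin G.J) :=
  U.filter (fun j => G.ρ < ‖z - G.x j‖)

open Classical in
/-- finite horizon value of a piece: start at `z` in the outer disc, stop at the exit from it -/
noncomputable def FN (G : Geo) (ν : Measure ℂ) (V : Finset (Fin G.J) → ℝ≥0∞) :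
    ℕ → ℂ → Finset (Fin G.J) → ℝ≥0∞
  | 0, z, U => if ‖z‖ < G.R' then 0 else V U
  | N + 1, z, U => if ‖z‖ < G.R' then ∫⁻ y, FN G ν V N (z + y) (upd G (z + y) U) ∂ν else V U

/-- value of a piece -/
noncomputable def Fv (G : Geo) (ν : Measure ℂ) (V : Finset (Fin G.J) → ℝ≥0∞) (z : ℂ)
    (U : Finset (Fin G.J)) : ℝ≥0∞ := ⨆ N, FN G ν V N z U

open Classical in
/-- largest probability (over all adapted choices of the starting points of the pieces) that all small
balls of `U` are hit by `m` pieces -/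
noncomputable def Vv (G : Geo) (ν : Measure ℂ) : ℕ → Finset (Fin G.J) → ℝ≥0∞
  | 0, U => if U = ∅ then 1 else 0
  | m + 1, U => ⨆ (z : ℂ) (_ : G.r - G.h ≤ ‖z‖ ∧ ‖z‖ ≤ G.r), Fv G ν (Vv G ν m) z (upd G z U)

open Classical in
/-- probability of no exit from the outer disc in the first `N` steps -/
noncomputable def eN (G : Geo) (ν : Measure ℂ) : ℕ → ℂ → ℝ≥0∞
  | 0, z => if ‖z‖ < G.R' then 1 else 0
  | N + 1, z => if ‖z‖ < G.R' then ∫⁻ y, eN G ν N (z + y) ∂ν else 0

/-- state of a region: `none` if more than the allowed number of pieces have started; otherwise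
(piece in progress?, number of pieces that may still be started, small balls not yet hit) -/
def RS (J : ℕ) : Type := Option (Bool × ℕ × Finset (Fin J))

instance (J : ℕ) : MeasurableSpace (RS J) := ⊤

instance (J : ℕ) : Countable (RS J) := inferInstanceAs (Countable (Option (Bool × ℕ × Finset (Fin J))))

open Classical in
/-- change of the state of a region when the walk arrives at `w` (relative to the centre) -/
noncomputable def rstep (G : Geo) (w : ℂ) : RS G.J → RS G.J
  | none => none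
  | some (false, 0, U) => if ‖w‖ ≤ G.r then none else some (false, 0, U)
  | some (false, m + 1, U) =>
      if ‖w‖ ≤ G.r then some (true, m, upd G w U) else some (false, m + 1, U)
  | some (true, m, U) =>
      if ‖w‖ < G.R' then some (true, m, upd G w U) else some (false, m, upd G w U)

/-- state of the region with centre `o` at time `k`; `n` pieces are allowed -/
noncomputable def rstate (G : Geo) (o : ℂ) (n : ℕ) (path : ℕ → ℂ) : ℕ → RS G.J
  | 0 => some (false, n, Finset.univ)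
  | k + 1 => rstep G (disp (path (k + 1) - o)) (rstate G o n path k)

/-! ### Richer states for the comparison -/

/-- small balls not yet hit, number of crossings to level `k` around `x j`, crossing in progress? -/
structure HS (J : ℕ) where
  U : Finset (Fin J)
  cnt : Fin J → ℕ → ℕ
  st : Fin J → ℕ → Bool

open Classical in
/-- change of the richer state when the walk arrives at `z` -/
noncomputable def updH (G : Geo) (z : ℂ) (s : HS G.J) : HS G.J where
  U := upd G z s.U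
  cnt := fun j k => if s.st j k = false ∧ ‖z - G.x j‖ ≤ G.R k then s.cnt j k + 1 else s.cnt j k
  st := fun j k => if s.st j k = true then decide (‖z - G.x j‖ < G.R (k - 1))
    else decide (‖z - G.x j‖ ≤ G.R k)

/-- the richer state is consistent with the position -/
def Val (G : Geo) (z : ℂ) (s : HS G.J) : Prop :=
  (∀ j ∈ s.U, G.ρ < ‖z - G.x j‖) ∧
    ∀ j k, 1 ≤ k → k ≤ G.K → (s.st j k = true → ‖z - G.x j‖ < G.R (k - 1)) ∧
      (s.st j k = false → G.R k < ‖z - G.x j‖)

/-- no crossing is in progress -/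
def Idle (G : Geo) (s : HS G.J) : Prop := ∀ j k, 1 ≤ k → k ≤ G.K → s.st j k = false

/-- a family of supersolutions: `Pa m` during a piece (with `m` further pieces), `Pi m` between pieces -/
structure SuperC (G : Geo) (ν : Measure ℂ) (Pa : ℕ → ℂ → HS G.J → ℝ≥0∞)
    (Pi : ℕ → HS G.J → ℝ≥0∞) : Prop where
  meas : ∀ m s, Measurable (fun z => Pa m z (updH G z s))
  step : ∀ m z s, ‖z‖ < G.R' → Val G z s →
    ∫⁻ y, Pa m (z + y) (updH G (z + y) s) ∂ν ≤ Pa m z s
  exit : ∀ m z s, G.R' ≤ ‖z‖ → ‖z‖ < G.R' + G.h → Pi m (updH G z s) ≤ Pa m z (updH G z s)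
  ring : ∀ m z s, Idle G s → G.r - G.h ≤ ‖z‖ → ‖z‖ ≤ G.r → Pa m z (updH G z s) ≤ Pi (m + 1) s

/-- a family of bounded subsolutions -/
structure SubC (G : Geo) (ν : Measure ℂ) (Qa : ℕ → ℂ → HS G.J → ℝ≥0∞)
    (Qi : ℕ → HS G.J → ℝ≥0∞) (C : ℝ≥0∞) : Prop where
  meas : ∀ m s, Measurable (fun z => Qa m z (updH G z s))
  step : ∀ m z s, ‖z‖ < G.R' → Val G z s →
    Qa m z s ≤ ∫⁻ y, Qa m (z + y) (updH G (z + y) s) ∂ν
  exit : ∀ m z s, G.R' ≤ ‖z‖ → ‖z‖ < G.R' + G.h → Qa m z (updH G z s) ≤ Qi m (updH G z s)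
  ring : ∀ m z s, Idle G s → G.r - G.h ≤ ‖z‖ → ‖z‖ ≤ G.r → Qi (m + 1) s ≤ Qa m z (updH G z s)
  bdd : ∀ m z s, ‖z‖ < G.R' → Val G z s → Qa m z s ≤ C

/-! ### Green function of the torus -/

/-- the properties of the truncated Green function `∫_0^T p_t dt` of the torus -/
structure GreenFn (κ C : ℝ) (g : ℂ → ℝ≥0∞) : Prop where
  meas : Measurable g
  upper : ∀ z, disp z ≠ 0 →
    g z ≤ ENNReal.ofReal (1 / (2 * Real.pi) * Real.log (1 / ‖disp z‖) + C)
  lower : ∀ z, disp z ≠ 0 →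
    ENNReal.ofReal (1 / (2 * Real.pi) * Real.log (1 / ‖disp z‖) - C) ≤ g z
  up : ∀ δ : ℝ≥0, δ ≤ 1 → ∀ z,
    ∫⁻ y, g (z + y) ∂(gauss2 δ) ≤ g z + ENNReal.ofReal (δ * (1 + κ))
  low : ∀ δ : ℝ≥0, 0 < δ → δ ≤ 1 → ∀ z, (δ : ℝ) ≤ ‖disp z‖ ^ 2 →
    g z + ENNReal.ofReal (δ * (1 - κ)) ≤
      ∫⁻ y, g (z + y) ∂(gauss2 δ) + ENNReal.ofReal (C * Real.exp (-‖disp z‖ ^ 2 / (8 * δ)))

/-! ### Parameters as functions of `L = log (1/ε)` -/

/-- time step `ε³` -/
noncomputable def pδ (L : ℝ) : ℝ≥0 := (Real.exp (-3 * L)).toNNReal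

/-- step bound `ε^(5/4)` -/
noncomputable def ph (L : ℝ) : ℝ := Real.exp (-(5 / 4) * L)

end Pool.Agent.helper32.EB
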